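import Pool.Agent.Lib.MP_6202c5_co.Design

set_option autoImplicit false

/-! # Effective bounds for the parameters of a quasi-symmetric 3-design -/

namespace Pool.Agent.Results.MP_6202c5_co.ParameterBounds

open Finset

/-- For a quasi-symmetric 3-`(v, k, l)` design with intersection numbers `1 ≤ x < y`, `3 < k` and
`2 k ≤ v`: the numbers `x` and `y` are bounded in terms of `y - x` alone, in terms of `x` alone and
in terms of `l` alone, and `k`, `v` are bounded in terms of `x` and `y`. -/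
theorem result (v k l x y : ℕ) (B : Finset (Finset (Fin v))) (hl : 0 < l)
    (hk : ∀ b ∈ B, b.card = k)
    (h3 : ∀ T : Finset (Fin v), T.card = 3 → (B.filter (fun b => T ⊆ b)).card = l)
    (hx : 1 ≤ x) (hxy : x < y)
    (hqs : ∀ b₁ ∈ B, ∀ b₂ ∈ B, b₁ ≠ b₂ → (b₁ ∩ b₂).card = x ∨ (b₁ ∩ b₂).card = y)
    (hY : ∃ b₁ ∈ B, ∃ b₂ ∈ B, b₁ ≠ b₂ ∧ (b₁ ∩ b₂).card = y)
    (hk3 : 3 < k) (hkv : 2 * k ≤ v) :
    x < (y - x) ^ 2 ∧ y ≤ x ^ 2 + x + 3 ∧ x + y ≤ l ∧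
      k ≤ (x + y - 1) ^ 2 * (x * y) ^ 2 * (x * y + 3) + 1 ∧
      (x + y - 1) * (v - 2) < 2 * (k - 1) ^ 2 := by
  have h := Pool.Agent.Lib.MP_6202c5_co.design_half v k l x y B hl hk h3 hx hxy hqs hY hk3 hkv
  refine ⟨h.1, h.2.1, h.2.2.1, h.2.2.2.1, ?_⟩
  obtain ⟨m, g, n, hS⟩ :=
    Pool.Agent.Lib.MP_6202c5_co.exists_sys B k l x y hl hk h3 hx hxy hqs hY hk3 hkv
  have h1 := hS.D_pos
  zify [show 1 ≤ x + y by omega, show 2 ≤ v by omega, show 1 ≤ k by omega]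
  linarith

end Pool.Agent.Results.MP_6202c5_co.ParameterBounds
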