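import Pool.Agent.Lib.MP_6202c5_co.Compl

set_option autoImplicit false

/-! # Quasi-symmetric 3-designs with a small intersection number, difference or index -/

namespace Pool.Agent.Results.MP_6202c5_co.SmallParameters

open Finset

/-- Let `B` be the block set of a quasi-symmetric 3-`(v, k, l)` design with intersection numbers
`x < y` and `3 < k < v - 3`, and let `E` be this design or its complement, whichever has block
size `k' ≤ v / 2`; let `x' < y'` be its intersection numbers and `l'` its index. If `x' ≤ 35` or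
`y' - x' ≤ 12` or `l' ≤ 200`, then `x' = 0`, or `E` is a 4-(23,7,1) design or a 3-(22,7,4) design
with intersection numbers 1 and 3. -/
theorem result (v k l x y : ℕ) (B : Finset (Finset (Fin v))) (hl : 0 < l)
    (hk : ∀ b ∈ B, b.card = k)
    (h3 : ∀ T : Finset (Fin v), T.card = 3 → (B.filter (fun b => T ⊆ b)).card = l)
    (hxy : x < y)
    (hqs : ∀ b₁ ∈ B, ∀ b₂ ∈ B, b₁ ≠ b₂ → (b₁ ∩ b₂).card = x ∨ (b₁ ∩ b₂).card = y)
    (hX : ∃ b₁ ∈ B, ∃ b₂ ∈ B, b₁ ≠ b₂ ∧ (b₁ ∩ b₂).card = x)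
    (hY : ∃ b₁ ∈ B, ∃ b₂ ∈ B, b₁ ≠ b₂ ∧ (b₁ ∩ b₂).card = y)
    (hk3 : 3 < k) (hkv : k + 3 < v) :
    ∃ (E : Finset (Finset (Fin v))) (k' x' y' l' : ℕ),
      ((E = B ∧ k' = k ∧ x' = x ∧ y' = y) ∨
        (E = B.image (fun b => univ \ b) ∧ k' + k = v ∧ x' + 2 * k = v + x ∧
          y' + 2 * k = v + y)) ∧
      2 * k' ≤ v ∧
      (∀ T : Finset (Fin v), T.card = 3 → (E.filter (fun b => T ⊆ b)).card = l') ∧
      ((x' ≤ 35 ∨ y' ≤ x' + 12 ∨ l' ≤ 200) →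
        x' = 0 ∨ (x' = 1 ∧ y' = 3 ∧ k' = 7 ∧
          ((v = 23 ∧ ∀ T : Finset (Fin v), T.card = 4 →
            (E.filter (fun b => T ⊆ b)).card = 1) ∨ (v = 22 ∧ l' = 4)))) := by
  obtain ⟨E, k', x', y', l', h1, h2, h4, h5⟩ :=
    Pool.Agent.Lib.MP_6202c5_co.design_all v k l x y B hl hk h3 hxy hqs hX hY hk3 hkv
  refine ⟨E, k', x', y', l', h1, h2, h4, ?_⟩
  intro hb
  rcases h5 with h5 | ⟨-, -, -, -, -, -, h6⟩
  · exact Or.inl h5
  · obtain ⟨a1, a2, a3, a4⟩ := h6 hb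
    refine Or.inr ⟨a1, a2, a3, ?_⟩
    rcases a4 with ⟨b1, -, b3⟩ | ⟨b1, b2⟩
    · exact Or.inl ⟨b1, b3⟩
    · exact Or.inr ⟨b1, b2⟩

end Pool.Agent.Results.MP_6202c5_co.SmallParameters
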